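import Mathlib
import Pool.Agent.U73.LC.Stm
import Pool.Agent.N92.SZ_LP
import Pool.Agent.N56.SZ_CONIC

/-!
Project LC, package LPS: large square divisors of `a ^ 3 - b ^ 2`.
-/

set_option autoImplicit false

namespace Pool.Agent.U296.LC

open Finset Filter Topology
open Pool.Agent.U73.LR Pool.Agent.U73.LS Pool.Agent.U73.LC

theorem t_LPS : S_LPS := by
  classical
  intro ε hε
  obtain ⟨C, hC, h⟩ := Pool.Agent.N92.SZ.lp Pool.Agent.N56.SZ.conic ε hε
  refine ⟨C * 2 ^ (8 + ε), by positivity, ?_⟩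
  intro Z P hZ hP
  rw [cnt_def]
  set F0 := (box Z).filter (fun q : ℤ × ℤ => q.1 ≠ 0 ∧ q.1 ^ 3 ≠ q.2 ^ 2 ∧
    ∃ p : ℕ, P ≤ p ∧ (p : ℤ) ^ 2 ∣ q.1 ^ 3 - q.2 ^ 2) with hF0
  set F : Finset (ℤ × ℤ) := F0.image (fun q => (3 * q.1, 2 * q.2)) with hF
  have hinj : Function.Injective (fun q : ℤ × ℤ => (3 * q.1, 2 * q.2)) := by
    rintro ⟨a, b⟩ ⟨a', b'⟩ hh
    simp only [Prod.mk.injEq] at hh
    obtain ⟨h1, h2⟩ := hh
    have h3 : a = a' := by omega
    have h4 : b = b' := by omega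
    rw [h3, h4]
  have hcard : F.card = F0.card := Finset.card_image_of_injective _ hinj
  have h1 := h (2 * Z) P (by linarith) hP F (by
    intro x hx
    rw [hF, Finset.mem_image] at hx
    obtain ⟨q, hq, rfl⟩ := hx
    rw [hF0, Finset.mem_filter] at hq
    obtain ⟨hb, ha, hne, p, hp, hdvd⟩ := hq
    rw [mem_box] at hb
    have e : Pool.Agent.N906.SZ.Dd (3 * q.1) (2 * q.2) = 108 * (q.1 ^ 3 - q.2 ^ 2) := by
      unfold Pool.Agent.N906.SZ.Dd
      ring
    refine ⟨?_, ?_, ?_, ?_, p, hp, ?_⟩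
    · simp only
      omega
    · simp only
      push_cast
      rw [abs_mul, abs_of_pos (by norm_num : (0 : ℝ) < 3), mul_pow]
      have := hb.1
      have hZ2 : 0 ≤ Z ^ 2 := by positivity
      nlinarith
    · simp only
      push_cast
      rw [abs_mul, abs_of_pos (by norm_num : (0 : ℝ) < 2), mul_pow]
      have := hb.2
      have hZ2 : 0 ≤ Z ^ 3 := by positivity
      nlinarith
    · simp only
      rw [e]
      intro h0
      apply hne
      have : q.1 ^ 3 - q.2 ^ 2 = 0 := by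
        rcases mul_eq_zero.1 h0 with h2 | h2
        · norm_num at h2
        · exact h2
      linarith
    · simp only
      rw [e]
      exact dvd_mul_of_dvd_right hdvd _)
  rw [hcard, Real.mul_rpow (by norm_num) (by linarith)] at h1
  calc (F0.card : ℝ) ≤ _ := h1
    _ = _ := by ring

end Pool.Agent.U296.LC
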